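import Pool.Agent.Y990.OA.Stm

set_option autoImplicit false
set_option linter.unusedVariables false

/-!
Project OA: two distinct crossing clusters, absorption and real analysis.
-/

open MeasureTheory Set

namespace Pool.Agent.Y319.OA

open Pool.Agent.W783.PC (pm DepOn Inc)
open Pool.Agent.W424.PC (cfgOf)
open Pool.Agent.Y990.CB
open Pool.Agent.Y990.OA
open H974 (Ex Ok ind Pr)

/-- The exponential function beats powers. -/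
theorem exp_beats (j : ℕ) {s : ℝ} (hs : 0 ≤ s) :
    s ^ (4 * j) * Real.exp (-((s ^ 2) ^ 2 / 2)) ≤ 2 ^ j * (j.factorial : ℝ) := by
  have hu : 0 ≤ (s ^ 2) ^ 2 / 2 := by positivity
  have h := Real.pow_div_factorial_le_exp ((s ^ 2) ^ 2 / 2) hu j
  have hf : (0 : ℝ) < j.factorial := by exact_mod_cast j.factorial_pos
  rw [div_le_iff₀ hf] at h
  rw [Real.exp_neg]
  have he := Real.exp_pos ((s ^ 2) ^ 2 / 2)
  rw [← div_eq_mul_inv, div_le_iff₀ he]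
  have e1 : s ^ (4 * j) = 2 ^ j * ((s ^ 2) ^ 2 / 2) ^ j := by
    rw [← mul_pow]
    have : 2 * ((s ^ 2) ^ 2 / 2) = s ^ 4 := by ring
    rw [this, ← pow_mul]
  rw [e1]
  calc 2 ^ j * ((s ^ 2) ^ 2 / 2) ^ j ≤ 2 ^ j * (Real.exp ((s ^ 2) ^ 2 / 2) * j.factorial) := by
        gcongr
    _ = 2 ^ j * (j.factorial : ℝ) * Real.exp ((s ^ 2) ^ 2 / 2) := by ring

/-- The constant. -/
noncomputable def B0 (d : ℕ) (C2 : ℝ) : ℝ :=
  32 * C2 * 3 ^ d + 2 * C2 * 3 ^ d * (2 ^ d * d * 8 + 1) +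
    32 * (d : ℝ) ^ 2 * 27 ^ d * (2 ^ (24 * d + 13) * ((24 * d + 13).factorial : ℝ))

/-- The deterministic inequality. -/
theorem core (d e : ℕ) (hd : 1 ≤ d) (C1 C2 : ℝ) (hC1 : 1 ≤ C1) (hC2 : 1 ≤ C2) (k L : ℕ) (s : ℝ)
    (hsL : s ^ 48 = L) (hs1 : 1 ≤ s)
    (hA : 2 * (C1 * C2 * 2 ^ d) * ((k : ℝ) + 2) ^ (e + d + 1) ≤ s)
    (hB : C1 * 4 ^ d * B0 d C2 * ((k : ℝ) + 2) ^ (e + d + 1) ≤ s)
    (T H E V : ℝ) (X Θ : ℕ → ℝ) (a b : ℕ) (hH : 0 ≤ H) (hV0 : 0 ≤ V)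
    (hV : V ≤ 3 * L) (hE : E ≤ V ^ d * ((4 * d * V ^ d) ^ 2 * Real.exp (-((s ^ 2) ^ 2 / 2))))
    (hX : ∀ m, a ≤ m → m < b → 0 ≤ X m ∧ X a ≤ X m ∧
      X m ≤ C2 * s ^ 2 * (Θ m + (s ^ 4)⁻¹ * ((2 * (k : ℝ) + 3) ^ d *
        (C1 * ((k : ℝ) + 2) ^ e * X m + d * (8 * k + 12) * V ^ (d - 1)) + V ^ d * H +
          V ^ (d - 1))) + E)
    (hΘ : ∑ m ∈ Finset.Ico a b, Θ m ≤ s ^ 24 * s ^ 12 * V ^ d / ((L : ℝ) - b))
    (hab : a < b) (hba : (L : ℝ) / 8 ≤ (b : ℝ) - a) (hLb : (L : ℝ) / 2 ≤ (L : ℝ) - b)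
    (hT : ((L : ℝ) / 4) ^ d * T ≤ C1 * ((k : ℝ) + 2) ^ e * X a) :
    T ≤ s⁻¹ * ((L : ℝ)⁻¹ + H) := by
  set Q : ℝ := (k : ℝ) + 2 with hQ
  have hk0 : (0 : ℝ) ≤ k := Nat.cast_nonneg k
  have hQ1 : 1 ≤ Q := by rw [hQ]; linarith
  have hQ0 : 0 < Q := by linarith
  have hs0 : 0 < s := by linarith
  have hL0 : (0 : ℝ) < L := by rw [← hsL]; positivity
  have hL1 : (1 : ℝ) ≤ L := by rw [← hsL]; exact one_le_pow₀ hs1
  have hd0 : (0 : ℝ) ≤ d := Nat.cast_nonneg d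
  have hC20 : 0 < C2 := by linarith
  have hC10 : 0 < C1 := by linarith
  set W : ℝ := (2 * (k : ℝ) + 3) ^ d with hW
  have hW0 : 0 ≤ W := by rw [hW]; positivity
  have hWQ : W ≤ 2 ^ d * Q ^ d := by
    rw [hW, ← mul_pow]
    have : 2 * (k : ℝ) + 3 ≤ 2 * Q := by rw [hQ]; linarith
    gcongr
  set J : ℝ := d * (8 * (k : ℝ) + 12) with hJ
  have hJ0 : 0 ≤ J := by rw [hJ]; positivity
  have hJQ : J ≤ d * 8 * Q := by
    rw [hJ, mul_assoc]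
    have : 8 * (k : ℝ) + 12 ≤ 8 * Q := by rw [hQ]; linarith
    gcongr
  set C3 : ℝ := 2 ^ (24 * d + 13) * ((24 * d + 13).factorial : ℝ) with hC3
  have hC30 : 0 ≤ C3 := by rw [hC3]; positivity
  set ε : ℝ := (s ^ 2)⁻¹ with hε
  have hε0 : 0 < ε := by rw [hε]; positivity
  have hs24 : s ^ 2 * (s ^ 4)⁻¹ = ε := by
    rw [hε]; field_simp
  -- the coefficient of `X m` on the right-hand side
  have hα : C2 * ε * (W * (C1 * Q ^ e)) ≤ 1 / 2 := by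
    have h1 : 2 * (C1 * C2 * 2 ^ d) * Q ^ (e + d) ≤ s ^ 2 := by
      calc 2 * (C1 * C2 * 2 ^ d) * Q ^ (e + d) ≤ 2 * (C1 * C2 * 2 ^ d) * Q ^ (e + d + 1) := by
            have : Q ^ (e + d) ≤ Q ^ (e + d + 1) := pow_le_pow_right₀ hQ1 (by omega)
            gcongr
        _ ≤ s := hA
        _ ≤ s ^ 2 := by nlinarith
    have h2 : C2 * (W * (C1 * Q ^ e)) ≤ C2 * ((2 ^ d * Q ^ d) * (C1 * Q ^ e)) := by gcongr
    have h3 : 2 * (C2 * ((2 ^ d * Q ^ d) * (C1 * Q ^ e))) =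
        2 * (C1 * C2 * 2 ^ d) * Q ^ (e + d) := by rw [pow_add]; ring
    have h4 : 2 * (C2 * (W * (C1 * Q ^ e))) ≤ s ^ 2 := by linarith
    have h5 : C2 * ε * (W * (C1 * Q ^ e)) = (C2 * (W * (C1 * Q ^ e))) / s ^ 2 := by
      rw [hε]; field_simp
    rw [h5, div_le_iff₀ (by positivity)]
    linarith
  set R : ℝ := 2 * C2 * ε * (W * (J * V ^ (d - 1)) + V ^ d * H + V ^ (d - 1)) + 2 * E with hR
  have hXm : ∀ m, a ≤ m → m < b → X m ≤ 2 * C2 * s ^ 2 * Θ m + R := by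
    intro m h1 h2
    obtain ⟨x0, -, x1⟩ := hX m h1 h2
    have e1 : C2 * s ^ 2 * (Θ m + (s ^ 4)⁻¹ * (W * (C1 * Q ^ e * X m + J * V ^ (d - 1)) +
        V ^ d * H + V ^ (d - 1))) + E = C2 * s ^ 2 * Θ m +
        (C2 * (s ^ 2 * (s ^ 4)⁻¹) * (W * (C1 * Q ^ e))) * X m +
        C2 * (s ^ 2 * (s ^ 4)⁻¹) * (W * (J * V ^ (d - 1)) + V ^ d * H + V ^ (d - 1)) + E := by
      ring
    rw [e1, hs24] at x1
    have h3 : (C2 * ε * (W * (C1 * Q ^ e))) * X m ≤ 1 / 2 * X m := by gcongr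
    rw [hR]
    linarith
  -- the sum over the levels
  have hbapos : (0 : ℝ) < (b : ℝ) - a := by linarith
  have hLbpos : (0 : ℝ) < (L : ℝ) - b := by linarith
  have hsum : ((b : ℝ) - a) * X a ≤ 2 * C2 * s ^ 2 * (s ^ 24 * s ^ 12 * V ^ d / ((L : ℝ) - b)) +
      ((b : ℝ) - a) * R := by
    have hc : (((Finset.Ico a b).card : ℕ) : ℝ) = (b : ℝ) - a := by
      rw [Nat.card_Ico, Nat.cast_sub hab.le]
    calc ((b : ℝ) - a) * X a = ∑ m ∈ Finset.Ico a b, X a := by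
          rw [Finset.sum_const, nsmul_eq_mul, hc]
      _ ≤ ∑ m ∈ Finset.Ico a b, (2 * C2 * s ^ 2 * Θ m + R) := by
          refine Finset.sum_le_sum fun m hm => ?_
          obtain ⟨h1, h2⟩ := Finset.mem_Ico.1 hm
          exact (hX m h1 h2).2.1.trans (hXm m h1 h2)
      _ = 2 * C2 * s ^ 2 * ∑ m ∈ Finset.Ico a b, Θ m + ((b : ℝ) - a) * R := by
          rw [Finset.sum_add_distrib, ← Finset.mul_sum, Finset.sum_const, nsmul_eq_mul, hc]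
      _ ≤ _ := by gcongr
  have hXa : X a ≤ 32 * C2 * s ^ 38 * V ^ d / (L : ℝ) ^ 2 + R := by
    have h1 : X a - R ≤ 2 * C2 * s ^ 2 * (s ^ 24 * s ^ 12 * V ^ d / ((L : ℝ) - b)) /
        ((b : ℝ) - a) := by
      rw [le_div_iff₀ hbapos]
      linarith
    have h2 : 2 * C2 * s ^ 2 * (s ^ 24 * s ^ 12 * V ^ d / ((L : ℝ) - b)) / ((b : ℝ) - a) =
        2 * C2 * s ^ 38 * V ^ d / (((L : ℝ) - b) * ((b : ℝ) - a)) := by
      field_simp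
    have h3 : (L : ℝ) ^ 2 / 16 ≤ ((L : ℝ) - b) * ((b : ℝ) - a) := by
      calc (L : ℝ) ^ 2 / 16 = ((L : ℝ) / 2) * ((L : ℝ) / 8) := by ring
        _ ≤ ((L : ℝ) - b) * ((b : ℝ) - a) := by gcongr
    have h4 : 2 * C2 * s ^ 38 * V ^ d / (((L : ℝ) - b) * ((b : ℝ) - a)) ≤
        2 * C2 * s ^ 38 * V ^ d / ((L : ℝ) ^ 2 / 16) := by gcongr
    have h5 : 2 * C2 * s ^ 38 * V ^ d / ((L : ℝ) ^ 2 / 16) =
        32 * C2 * s ^ 38 * V ^ d / (L : ℝ) ^ 2 := by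
      field_simp
      ring
    linarith
  -- sizes
  set Λ : ℝ := (L : ℝ) ^ d with hΛ
  have hΛ0 : 0 < Λ := by rw [hΛ]; positivity
  have hVd : V ^ d ≤ 3 ^ d * Λ := by
    rw [hΛ, ← mul_pow]
    gcongr
  have hVd1 : V ^ (d - 1) ≤ 3 ^ d * Λ * (L : ℝ)⁻¹ := by
    have h1 : V ^ (d - 1) ≤ (3 * (L : ℝ)) ^ (d - 1) := by gcongr
    have h2 : Λ * (L : ℝ)⁻¹ = (L : ℝ) ^ (d - 1) := by
      rw [hΛ]
      obtain ⟨d', rfl⟩ : ∃ d', d = d' + 1 := ⟨d - 1, by omega⟩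
      rw [Nat.add_sub_cancel, pow_succ]
      field_simp
    have h3 : (3 : ℝ) ^ (d - 1) ≤ 3 ^ d := pow_le_pow_right₀ (by norm_num) (by omega)
    rw [mul_assoc, h2]
    refine h1.trans ?_
    rw [mul_pow]
    gcongr
  have hs38 : s ^ 38 / (L : ℝ) ^ 2 ≤ ε * (L : ℝ)⁻¹ := by
    rw [hε, div_le_iff₀ (by positivity)]
    have h1 : (s ^ 2)⁻¹ * (L : ℝ)⁻¹ * (L : ℝ) ^ 2 = (L : ℝ) / s ^ 2 := by
      field_simp
    rw [h1, le_div_iff₀ (by positivity), ← hsL, ← pow_add]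
    exact pow_le_pow_right₀ hs1 (by norm_num)
  have hEE : E ≤ Λ * (16 * (d : ℝ) ^ 2 * 27 ^ d * C3) * (ε * (L : ℝ)⁻¹) := by
    have h1 := exp_beats (24 * d + 13) hs0.le
    rw [← hC3] at h1
    set ex := Real.exp (-((s ^ 2) ^ 2 / 2)) with hex
    have hex0 : 0 < ex := Real.exp_pos _
    have h2 : V ^ d * ((4 * d * V ^ d) ^ 2 * ex) ≤
        (3 ^ d * Λ) * ((4 * d * (3 ^ d * Λ)) ^ 2 * ex) := by gcongr
    have h3 : (3 ^ d * Λ) * ((4 * d * (3 ^ d * Λ)) ^ 2 * ex) =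
        Λ * (16 * (d : ℝ) ^ 2 * 27 ^ d) * (Λ ^ 2 * ex) := by
      have : (27 : ℝ) ^ d = 3 ^ d * 3 ^ d * 3 ^ d := by
        rw [← mul_pow, ← mul_pow]; norm_num
      rw [this]; ring
    have h4 : Λ ^ 2 * ex ≤ C3 * (ε * (L : ℝ)⁻¹) := by
      have h5 : C3 * (ε * (L : ℝ)⁻¹) = C3 / s ^ 50 := by
        rw [hε, ← hsL]
        have : (s ^ 50 : ℝ) = s ^ 2 * s ^ 48 := by ring
        rw [this]
        field_simp
      rw [h5, le_div_iff₀ (by positivity)]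
      have h6 : Λ ^ 2 = s ^ (96 * d) := by
        rw [hΛ, ← hsL, ← pow_mul, ← pow_mul]
        congr 1
        ring
      calc Λ ^ 2 * ex * s ^ 50 = s ^ (96 * d + 50) * ex := by rw [h6, pow_add]; ring
        _ ≤ s ^ (4 * (24 * d + 13)) * ex := by
            have : s ^ (96 * d + 50) ≤ s ^ (4 * (24 * d + 13)) :=
              pow_le_pow_right₀ hs1 (by omega)
            gcongr
        _ ≤ C3 := h1
    calc E ≤ V ^ d * ((4 * d * V ^ d) ^ 2 * ex) := hE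
      _ ≤ (3 ^ d * Λ) * ((4 * d * (3 ^ d * Λ)) ^ 2 * ex) := h2
      _ = Λ * (16 * (d : ℝ) ^ 2 * 27 ^ d) * (Λ ^ 2 * ex) := h3
      _ ≤ Λ * (16 * (d : ℝ) ^ 2 * 27 ^ d) * (C3 * (ε * (L : ℝ)⁻¹)) := by gcongr
      _ = Λ * (16 * (d : ℝ) ^ 2 * 27 ^ d * C3) * (ε * (L : ℝ)⁻¹) := by ring
  have hLi : (0 : ℝ) < (L : ℝ)⁻¹ := by positivity
  set B : ℝ := 32 * C2 * 3 ^ d + 2 * C2 * 3 ^ d * (W * J + 1) + 32 * (d : ℝ) ^ 2 * 27 ^ d * C3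
    with hBdef
  have hB0' : 0 ≤ B := by rw [hBdef]; positivity
  have hXb : X a ≤ Λ * ε * (B * ((L : ℝ)⁻¹ + H)) := by
    have t1 : 32 * C2 * s ^ 38 * V ^ d / (L : ℝ) ^ 2 ≤
        Λ * ε * (32 * C2 * 3 ^ d * (L : ℝ)⁻¹) := by
      calc 32 * C2 * s ^ 38 * V ^ d / (L : ℝ) ^ 2 = 32 * C2 * (s ^ 38 / (L : ℝ) ^ 2) * V ^ d := by
            ring
        _ ≤ 32 * C2 * (ε * (L : ℝ)⁻¹) * (3 ^ d * Λ) := by gcongr
        _ = Λ * ε * (32 * C2 * 3 ^ d * (L : ℝ)⁻¹) := by ring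
    have t2 : W * (J * V ^ (d - 1)) + V ^ d * H + V ^ (d - 1) ≤
        W * (J * (3 ^ d * Λ * (L : ℝ)⁻¹)) + (3 ^ d * Λ) * H + 3 ^ d * Λ * (L : ℝ)⁻¹ := by
      gcongr
    have t3 : R ≤ Λ * ε * (2 * C2 * 3 ^ d * (W * J + 1) * (L : ℝ)⁻¹ + 2 * C2 * 3 ^ d * H +
        32 * (d : ℝ) ^ 2 * 27 ^ d * C3 * (L : ℝ)⁻¹) := by
      rw [hR]
      calc 2 * C2 * ε * (W * (J * V ^ (d - 1)) + V ^ d * H + V ^ (d - 1)) + 2 * E ≤
          2 * C2 * ε * (W * (J * (3 ^ d * Λ * (L : ℝ)⁻¹)) + (3 ^ d * Λ) * H +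
            3 ^ d * Λ * (L : ℝ)⁻¹) +
            2 * (Λ * (16 * (d : ℝ) ^ 2 * 27 ^ d * C3) * (ε * (L : ℝ)⁻¹)) := by gcongr
        _ = _ := by ring
    have t4 : 2 * C2 * 3 ^ d * H ≤ B * H := by
      refine mul_le_mul_of_nonneg_right ?_ hH
      rw [hBdef]
      have h1 : 0 ≤ 32 * C2 * 3 ^ d := by positivity
      have h2 : 0 ≤ 32 * (d : ℝ) ^ 2 * 27 ^ d * C3 := by positivity
      have h3 : 0 ≤ 2 * C2 * 3 ^ d * (W * J) := by positivity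
      linarith
    calc X a ≤ 32 * C2 * s ^ 38 * V ^ d / (L : ℝ) ^ 2 + R := hXa
      _ ≤ Λ * ε * (32 * C2 * 3 ^ d * (L : ℝ)⁻¹) +
          Λ * ε * (2 * C2 * 3 ^ d * (W * J + 1) * (L : ℝ)⁻¹ + 2 * C2 * 3 ^ d * H +
          32 * (d : ℝ) ^ 2 * 27 ^ d * C3 * (L : ℝ)⁻¹) := add_le_add t1 t3
      _ = Λ * ε * (B * (L : ℝ)⁻¹ + 2 * C2 * 3 ^ d * H) := by rw [hBdef]; ring
      _ ≤ Λ * ε * (B * (L : ℝ)⁻¹ + B * H) := by gcongr
      _ = Λ * ε * (B * ((L : ℝ)⁻¹ + H)) := by ring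
  have hBQ : B ≤ B0 d C2 * Q ^ (d + 1) := by
    have hQd : 1 ≤ Q ^ (d + 1) := one_le_pow₀ hQ1
    have h1 : W * J ≤ 2 ^ d * d * 8 * Q ^ (d + 1) := by
      calc W * J ≤ (2 ^ d * Q ^ d) * (d * 8 * Q) := by gcongr
        _ = 2 ^ d * d * 8 * Q ^ (d + 1) := by rw [pow_succ]; ring
    rw [hBdef]
    unfold B0
    rw [← hC3]
    have h2 : 0 ≤ 32 * C2 * 3 ^ d := by positivity
    have h3 : 0 ≤ 32 * (d : ℝ) ^ 2 * 27 ^ d * C3 := by positivity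
    have h4 : 0 ≤ 2 * C2 * 3 ^ d := by positivity
    have i1 := le_mul_of_one_le_right h2 hQd
    have i3 := le_mul_of_one_le_right h3 hQd
    have i2 : 2 * C2 * 3 ^ d * (W * J + 1) ≤
        2 * C2 * 3 ^ d * (2 ^ d * d * 8 * Q ^ (d + 1) + Q ^ (d + 1)) :=
      mul_le_mul_of_nonneg_left (add_le_add h1 hQd) h4
    refine (add_le_add (add_le_add i1 i2) i3).trans (le_of_eq ?_)
    ring
  -- conclusion
  have hT2 : T ≤ 4 ^ d * Λ⁻¹ * (C1 * Q ^ e * X a) := by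
    have h1 : ((L : ℝ) / 4) ^ d = Λ / 4 ^ d := by rw [div_pow]
    rw [h1] at hT
    have h2 : 4 ^ d * Λ⁻¹ * (Λ / 4 ^ d * T) = T := by field_simp
    rw [← h2]
    gcongr
  have hLH : 0 ≤ (L : ℝ)⁻¹ + H := by positivity
  calc T ≤ 4 ^ d * Λ⁻¹ * (C1 * Q ^ e * X a) := hT2
    _ ≤ 4 ^ d * Λ⁻¹ * (C1 * Q ^ e * (Λ * ε * (B * ((L : ℝ)⁻¹ + H)))) := by gcongr
    _ = (C1 * 4 ^ d * (Q ^ e * B)) * ε * ((L : ℝ)⁻¹ + H) := by field_simp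
    _ ≤ (C1 * 4 ^ d * (Q ^ e * (B0 d C2 * Q ^ (d + 1)))) * ε * ((L : ℝ)⁻¹ + H) := by gcongr
    _ = (C1 * 4 ^ d * B0 d C2 * Q ^ (e + d + 1)) * ε * ((L : ℝ)⁻¹ + H) := by
        rw [show e + d + 1 = e + (d + 1) by ring, pow_add Q e (d + 1)]; ring
    _ ≤ s * ε * ((L : ℝ)⁻¹ + H) := by gcongr
    _ = s⁻¹ * ((L : ℝ)⁻¹ + H) := by
        rw [hε]; congr 1; field_simp

/-- Difference of powers. -/
theorem pow_sub_le (n : ℕ) {x y : ℝ} (hy : 0 ≤ y) (hxy : y ≤ x) :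
    x ^ (n + 1) - y ^ (n + 1) ≤ ((n : ℝ) + 1) * (x - y) * x ^ n := by
  induction n with
  | zero => simp
  | succ n ih =>
    have hx : 0 ≤ x := hy.trans hxy
    have h1 : x ^ (n + 1 + 1) - y ^ (n + 1 + 1) =
        x * (x ^ (n + 1) - y ^ (n + 1)) + (x - y) * y ^ (n + 1) := by ring
    have h2 : y ^ (n + 1) ≤ x ^ (n + 1) := by gcongr
    have h3 : 0 ≤ x - y := sub_nonneg.2 hxy
    rw [h1]
    calc x * (x ^ (n + 1) - y ^ (n + 1)) + (x - y) * y ^ (n + 1) ≤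
        x * (((n : ℝ) + 1) * (x - y) * x ^ n) + (x - y) * x ^ (n + 1) := by gcongr
      _ = (((n + 1 : ℕ) : ℝ) + 1) * (x - y) * x ^ (n + 1) := by push_cast; ring

theorem pow_sub_le' {d : ℕ} (hd : 1 ≤ d) {x y : ℝ} (hy : 0 ≤ y) (hxy : y ≤ x) :
    x ^ d - y ^ d ≤ (d : ℝ) * (x - y) * x ^ (d - 1) := by
  obtain ⟨n, rfl⟩ : ∃ n, d = n + 1 := ⟨d - 1, by omega⟩
  have := pow_sub_le n hy hxy
  rw [Nat.add_sub_cancel]
  push_cast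
  exact this

/-- Sums over two boxes. -/
theorem sum_box {d : ℕ} (hd : 1 ≤ d) (f : Z d → ℝ) (hf : ∀ z, f z ≤ 1) {r m : ℕ} (hrm : r ≤ m) :
    ∑ z ∈ Bf (0 : Z d) m, f z ≤ ∑ z ∈ Bf (0 : Z d) r, f z +
      d * (2 * ((m : ℝ) - r)) * (2 * (m : ℝ) + 1) ^ (d - 1) := by
  classical
  have hsub : Bf (0 : Z d) r ⊆ Bf 0 m := by
    intro z hz
    rw [mem_Bf] at hz ⊢
    exact Bo_mono 0 hrm hz
  have hrm' : (r : ℝ) ≤ m := by exact_mod_cast hrm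
  have hr0 : (0 : ℝ) ≤ r := Nat.cast_nonneg r
  have h1 : ∑ z ∈ Bf (0 : Z d) m \ Bf (0 : Z d) r, f z ≤
      (2 * (m : ℝ) + 1) ^ d - (2 * (r : ℝ) + 1) ^ d := by
    calc ∑ z ∈ Bf (0 : Z d) m \ Bf (0 : Z d) r, f z ≤
        ∑ z ∈ Bf (0 : Z d) m \ Bf (0 : Z d) r, (1 : ℝ) := Finset.sum_le_sum fun z _ => hf z
      _ = ((Bf (0 : Z d) m).card : ℝ) - ((Bf (0 : Z d) r).card : ℝ) := by
          rw [Finset.sum_const, nsmul_eq_mul, mul_one, Finset.cast_card_sdiff hsub]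
      _ = (2 * (m : ℝ) + 1) ^ d - (2 * (r : ℝ) + 1) ^ d := by
          rw [card_Bf, card_Bf]; push_cast; ring
  have h2 := pow_sub_le' hd (x := 2 * (m : ℝ) + 1) (y := 2 * (r : ℝ) + 1) (by positivity)
    (by linarith)
  have h3 : 2 * (m : ℝ) + 1 - (2 * (r : ℝ) + 1) = 2 * ((m : ℝ) - r) := by ring
  rw [h3] at h2
  rw [← Finset.sum_sdiff hsub]
  linarith

/-- The exponent. -/
theorem rpow_exponent {d : ℕ} (hd : 3 ≤ d) {s : ℝ} (hs1 : 1 ≤ s) :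
    (s ^ 24) ^ (-(((d : ℝ) - 2) / (2 * d))) ≤ (s ^ 4)⁻¹ := by
  have hd3 : (3 : ℝ) ≤ d := by exact_mod_cast hd
  have hs0 : 0 ≤ s := zero_le_one.trans hs1
  have h7 : -(((d : ℝ) - 2) / (2 * d)) ≤ -((6 : ℕ) : ℝ)⁻¹ := by
    rw [neg_le_neg_iff, ← one_div, div_le_div_iff₀ (by norm_num) (by positivity)]
    push_cast
    linarith
  refine (Real.rpow_le_rpow_of_exponent_le (one_le_pow₀ hs1) h7).trans (le_of_eq ?_)
  rw [Real.rpow_neg (pow_nonneg hs0 24)]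
  congr 1
  have h8 : s ^ 24 = (s ^ 4) ^ 6 := by rw [← pow_mul]
  rw [h8]
  exact Real.pow_rpow_inv_natCast (pow_nonneg hs0 4) (by norm_num)

/-- Combination of the estimates at one level. -/
theorem lev_combine {c Θ τ τ' D S1 S2 S3 S1' S2' S3' F N F' N' ex X : ℝ} (hc : 0 ≤ c)
    (hτ : τ ≤ τ') (hτ' : 0 ≤ τ') (hD : 0 ≤ D) (h1 : S1 ≤ S1') (h2 : S2 ≤ S2')
    (h3 : S3 ≤ S3') (p1 : 0 ≤ S1) (p2 : 0 ≤ S2) (p3 : 0 ≤ S3) (hF : F ≤ F') (hF0 : 0 ≤ F)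
    (hN : N ≤ N') (hN0 : 0 ≤ N) (hex : 0 ≤ ex)
    (hl : X ≤ c * (Θ + τ * (D * S1 + S2 + S3)) + F * (N ^ 2 * ex)) :
    X ≤ c * (Θ + τ' * (D * S1' + S2' + S3')) + F' * (N' ^ 2 * ex) := by
  have e1 : D * S1 + S2 + S3 ≤ D * S1' + S2' + S3' :=
    add_le_add (add_le_add (mul_le_mul_of_nonneg_left h1 hD) h2) h3
  have e0 : 0 ≤ D * S1 + S2 + S3 := add_nonneg (add_nonneg (mul_nonneg hD p1) p2) p3
  have e2 : τ * (D * S1 + S2 + S3) ≤ τ' * (D * S1' + S2' + S3') := mul_le_mul hτ e1 e0 hτ'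
  have e3 : N ^ 2 ≤ N' ^ 2 := pow_le_pow_left₀ hN0 hN 2
  have e4 : N ^ 2 * ex ≤ N' ^ 2 * ex := mul_le_mul_of_nonneg_right e3 hex
  have e5 : F * (N ^ 2 * ex) ≤ F' * (N' ^ 2 * ex) :=
    mul_le_mul hF e4 (mul_nonneg (pow_nonneg hN0 2) hex) (hF0.trans hF)
  exact hl.trans (add_le_add (mul_le_mul_of_nonneg_left (add_le_add le_rfl e2) hc) e5)

/-- The norm of the points of a box. -/
theorem nm_of_mem {d : ℕ} (z : Z d) (r : ℕ) (hz : z ∈ Bf (0 : Z d) r) : nm z ≤ r := by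
  rw [mem_Bf] at hz
  rw [nm_le]
  intro i
  have h7 := hz i
  simpa using h7

/-- Places with two clusters, all of the box. -/
theorem sum_Kv {d : ℕ} (hd : 1 ≤ d) (M : Mod d) (p : unitInterval) (C1 Q V : ℝ) (e k L m : ℕ)
    (hcv : ∑ z ∈ Bf (0 : Z d) (m - (4 * k + 5)), (mu M p).real (Kv M L z (k + 1)) ≤
      C1 * Q ^ e * Xi M p L m) (hm : 4 * k + 5 ≤ m) (hV : 2 * (((m + 1 : ℕ) : ℝ)) + 1 ≤ V) :
    ∑ z ∈ Bf (0 : Z d) (m + 1), (mu M p).real (Kv M L z (k + 1)) ≤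
        C1 * Q ^ e * Xi M p L m + d * (8 * (k : ℝ) + 12) * V ^ (d - 1) := by
  have h7 := sum_box hd (fun z => (mu M p).real (Kv M L z (k + 1)))
    (fun z => measureReal_le_one) (r := m - (4 * k + 5)) (m := m + 1) (by omega)
  have h10 : (((m + 1 : ℕ) : ℝ) - ((m - (4 * k + 5) : ℕ) : ℝ)) = 4 * (k : ℝ) + 6 := by
    rw [Nat.cast_sub hm]
    push_cast
    ring
  rw [h10] at h7
  have hm0 : (0 : ℝ) ≤ 2 * (((m + 1 : ℕ) : ℝ)) + 1 := by positivity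
  have h11 : (2 * (((m + 1 : ℕ) : ℝ)) + 1) ^ (d - 1) ≤ V ^ (d - 1) :=
    pow_le_pow_left₀ hm0 hV _
  have h12 : (d : ℝ) * (2 * (4 * (k : ℝ) + 6)) * (2 * (((m + 1 : ℕ) : ℝ)) + 1) ^ (d - 1) ≤
      d * (8 * (k : ℝ) + 12) * V ^ (d - 1) := by
    have h13 : (d : ℝ) * (2 * (4 * (k : ℝ) + 6)) = d * (8 * (k : ℝ) + 12) := by ring
    rw [h13]
    exact mul_le_mul_of_nonneg_left h11 (by positivity)
  linarith

/-- Places without clusters. -/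
theorem sum_Ho (h5 : S_mon) {d : ℕ} (M : Mod d) (p : unitInterval) (V : ℝ) (k L m : ℕ)
    (hL : 1 ≤ L) (hm : m + 1 + k ≤ L) (hV : 2 * (((m + 1 : ℕ) : ℝ)) + 1 ≤ V) :
    ∑ z ∈ Bf (0 : Z d) (m + 1), (mu M p).real (Ho M L z k) ≤ V ^ d * hol M p k (2 * L) := by
  have hH0 : 0 ≤ hol M p k (2 * L) := by unfold hol; exact measureReal_nonneg
  have hm0 : (0 : ℝ) ≤ 2 * (((m + 1 : ℕ) : ℝ)) + 1 := by positivity
  calc ∑ z ∈ Bf (0 : Z d) (m + 1), (mu M p).real (Ho M L z k) ≤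
      ∑ z ∈ Bf (0 : Z d) (m + 1), hol M p k (2 * L) := by
        refine Finset.sum_le_sum fun z hz => ?_
        have h7 := nm_of_mem z _ hz
        exact (h5 d M p k L z hL (by omega)).1
    _ = (2 * (((m + 1 : ℕ) : ℝ)) + 1) ^ d * hol M p k (2 * L) := by
        rw [Finset.sum_const, nsmul_eq_mul, card_Bf]; push_cast; ring
    _ ≤ V ^ d * hol M p k (2 * L) :=
        mul_le_mul_of_nonneg_right (pow_le_pow_left₀ hm0 hV _) hH0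

/-- The thin clusters. -/
theorem sum_Th (h3 : S_thin) (h4 : S_al1) {d : ℕ} (M : Mod d) (p : unitInterval) (s : ℝ)
    (hs1 : 1 ≤ s) (a b L : ℕ) (hb : b < L) :
    ∑ m ∈ Finset.Ico a b, Th M p L m (s ^ 24) ≤
      s ^ 24 * s ^ 12 * (2 * (L : ℝ) + 1) ^ d / ((L : ℝ) - b) := by
  classical
  have hs0 : 0 ≤ s := zero_le_one.trans hs1
  have h7 : ∑ m ∈ Finset.Ico a b, Th M p L m (s ^ 24) =
      Ex (fun _ : M.ι => (p : ℝ)) (Tf M L)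
        (fun A => ∑ m ∈ Finset.Ico a b, Tn m (s ^ 24) (Al M L (cfgOf A))) := by
    rw [H974.Ex_sum]
    rfl
  have h8 : √(s ^ 24) = s ^ 12 := by
    have h10 : s ^ 24 = (s ^ 12) ^ 2 := by rw [← pow_mul]
    rw [h10]
    exact Real.sqrt_sq (pow_nonneg hs0 12)
  rw [h7]
  refine H974.Ex_le_of_le (fun _ => ⟨p.2.1, p.2.2⟩) fun A _ => ?_
  have h9 := h3 d a b L (s ^ 24) (Al M L (cfgOf A)) hb (one_le_pow₀ hs1)
    (h4 d M L (cfgOf A))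
  rw [h8] at h9
  refine h9.trans (le_of_eq ?_)
  push_cast
  rfl

/-- The box. -/
theorem box_T (h5 : S_mon) {d : ℕ} (M : Mod d) (p : unitInterval) (k L r : ℕ) (hL : 1 ≤ L)
    (hr : r + (k + 1) ≤ L) {Y : ℝ}
    (hY : ∑ z ∈ Bf (0 : Z d) r, (mu M p).real (Kv M L z (k + 1)) ≤ Y) {l : ℝ} (hl0 : 0 ≤ l)
    (hl : l ≤ 2 * (r : ℝ) + 1) : l ^ d * (mu M p).real (Ta M 0 (k + 1) (2 * L)) ≤ Y := by
  have hT0 : 0 ≤ (mu M p).real (Ta M 0 (k + 1) (2 * L)) := measureReal_nonneg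
  refine le_trans ?_ hY
  calc l ^ d * (mu M p).real (Ta M 0 (k + 1) (2 * L)) ≤
      (2 * (r : ℝ) + 1) ^ d * (mu M p).real (Ta M 0 (k + 1) (2 * L)) :=
        mul_le_mul_of_nonneg_right (pow_le_pow_left₀ hl0 hl _) hT0
    _ = ∑ z ∈ Bf (0 : Z d) r, (mu M p).real (Ta M 0 (k + 1) (2 * L)) := by
        rw [Finset.sum_const, nsmul_eq_mul, card_Bf]; push_cast; ring
    _ ≤ _ := by
        refine Finset.sum_le_sum fun z hz => ?_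
        have h8 := nm_of_mem z _ hz
        exact (h5 d M p (k + 1) L z hL (by omega)).2

/-- One level. -/
theorem level (h5 : S_mon) (h6 : S_xi) {d : ℕ} (hd : 3 ≤ d) (M : Mod d)
    (p : unitInterval) (C1 C2 s V : ℝ) (e k L m : ℕ) (hC2 : 0 ≤ C2) (hs1 : 1 ≤ s)
    (hV : V = 2 * (L : ℝ) + 1)
    (hlev : Xi M p L m ≤ C2 * s ^ 2 * (Th M p L m (s ^ 24) +
      (s ^ 24) ^ (-(((d : ℝ) - 2) / (2 * d))) *
      (((2 * k + 3 : ℕ) : ℝ) ^ d * ∑ z ∈ Bf (0 : Z d) (m + 1),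
        (mu M p).real (Kv M L z (k + 1)) +
        ∑ z ∈ Bf (0 : Z d) (m + 1), (mu M p).real (Ho M L z k) +
        ((2 * m + 3 : ℕ) : ℝ) ^ (d - 1))) +
      ((Ff (0 : Z d) L).card : ℝ) * (((Tf M m).card : ℝ) ^ 2 * Real.exp (-((s ^ 2) ^ 2 / 2))))
    (hcv : ∑ z ∈ Bf (0 : Z d) (m - (4 * k + 5)), (mu M p).real (Kv M L z (k + 1)) ≤
      C1 * ((k : ℝ) + 2) ^ e * Xi M p L m) (hm : 4 * k + 5 ≤ m) (hmL : m + 1 + k ≤ L)
    (hmL' : m + 1 ≤ L) :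
    Xi M p L m ≤ C2 * s ^ 2 * (Th M p L m (s ^ 24) + (s ^ 4)⁻¹ * ((2 * (k : ℝ) + 3) ^ d *
        (C1 * ((k : ℝ) + 2) ^ e * Xi M p L m + d * (8 * k + 12) * V ^ (d - 1)) +
          V ^ d * hol M p k (2 * L) + V ^ (d - 1))) +
      V ^ d * ((4 * d * V ^ d) ^ 2 * Real.exp (-((s ^ 2) ^ 2 / 2))) := by
  have hs0 : 0 ≤ s := zero_le_one.trans hs1
  have x2 := h6 d M p L m m le_rfl
  have hmL1 : (m : ℝ) + 1 ≤ L := by exact_mod_cast hmL'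
  have hm0 : (0 : ℝ) ≤ m := Nat.cast_nonneg m
  have hVm : 2 * (((m + 1 : ℕ) : ℝ)) + 1 ≤ V := by
    rw [hV]; push_cast; linarith
  have hV0 : 0 ≤ V := by rw [hV]; positivity
  have hS3 : ((2 * m + 3 : ℕ) : ℝ) ^ (d - 1) ≤ V ^ (d - 1) := by
    have h7 : ((2 * m + 3 : ℕ) : ℝ) ≤ V := by rw [hV]; push_cast; linarith
    exact pow_le_pow_left₀ (Nat.cast_nonneg _) h7 _
  have hF : ((Ff (0 : Z d) L).card : ℝ) ≤ V ^ d := by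
    refine x2.2.2.2.trans (le_of_eq ?_)
    rw [hV]; push_cast; rfl
  have hTf : ((Tf M m).card : ℝ) ≤ 4 * d * V ^ d := by
    refine x2.2.2.1.trans ?_
    have h7 : ((2 * m + 1 : ℕ) : ℝ) ≤ V := by rw [hV]; push_cast; linarith
    exact mul_le_mul_of_nonneg_left (pow_le_pow_left₀ (Nat.cast_nonneg _) h7 _) (by positivity)
  have h2k : ((2 * k + 3 : ℕ) : ℝ) = 2 * (k : ℝ) + 3 := by push_cast; ring
  rw [h2k] at hlev
  exact lev_combine (mul_nonneg hC2 (pow_nonneg hs0 2)) (rpow_exponent hd hs1)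
    (inv_nonneg.2 (pow_nonneg hs0 4)) (by positivity)
    (sum_Kv (by omega) M p C1 ((k : ℝ) + 2) V e k L m hcv hm hVm)
    (sum_Ho h5 M p V k L m (by omega) (by omega) hVm) hS3
    (Finset.sum_nonneg fun _ _ => measureReal_nonneg)
    (Finset.sum_nonneg fun _ _ => measureReal_nonneg)
    (pow_nonneg (Nat.cast_nonneg _) _) hF (Nat.cast_nonneg _) hTf (Nat.cast_nonneg _)
    (Real.exp_pos _).le hlev

/-- Two distinct crossing clusters, one box. -/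
theorem two3_box (h3 : S_thin) (h4 : S_al1) (h5 : S_mon) (h6 : S_xi) {d : ℕ} (hd : 3 ≤ d)
    (M : Mod d) (p : unitInterval) (C1 C2 : ℝ) (hC1 : 1 ≤ C1) (hC2 : 1 ≤ C2) (e : ℕ)
    (hcv : ∀ k L r m : ℕ, 1 ≤ k → r + 4 * k + 1 ≤ m → m < L →
      ∑ z ∈ Bf (0 : Z d) r, (mu M p).real (Kv M L z k) ≤
        C1 * ((k : ℝ) + 1) ^ e * Xi M p L m)
    (hlev : ∀ (M : Mod d) (p : unitInterval) (k m L : ℕ) (t K : ℝ), k + 2 + m ≤ L → 1 ≤ t →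
      1 ≤ K → Xi M p L m ≤ C2 * K * (Th M p L m t + t ^ (-(((d : ℝ) - 2) / (2 * d))) *
      (((2 * k + 3 : ℕ) : ℝ) ^ d * ∑ z ∈ Bf (0 : Z d) (m + 1), (mu M p).real (Kv M L z (k + 1)) +
        ∑ z ∈ Bf (0 : Z d) (m + 1), (mu M p).real (Ho M L z k) +
        ((2 * m + 3 : ℕ) : ℝ) ^ (d - 1))) +
      ((Ff (0 : Z d) L).card : ℝ) * (((Tf M m).card : ℝ) ^ 2 * Real.exp (-(K ^ 2 / 2))))
    (k L : ℕ) (s : ℝ) (hsL : s ^ 48 = L) (hs1 : 1 ≤ s)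
    (hA : 2 * (C1 * C2 * 2 ^ d) * ((k : ℝ) + 2) ^ (e + d + 1) ≤ s)
    (hB : C1 * 4 ^ d * B0 d C2 * ((k : ℝ) + 2) ^ (e + d + 1) ≤ s)
    (hLk : 64 * (k + 2) ≤ L) :
    (mu M p).real (Ta M 0 (k + 1) (2 * L)) ≤ s⁻¹ * ((L : ℝ)⁻¹ + hol M p k (2 * L)) := by
  have hLk' : 64 * ((k : ℝ) + 2) ≤ L := by exact_mod_cast hLk
  have hk0 : (0 : ℝ) ≤ k := Nat.cast_nonneg k
  have hH0 : 0 ≤ hol M p k (2 * L) := by unfold hol; exact measureReal_nonneg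
  obtain ⟨a, ha⟩ : ∃ a : ℕ, a = L / 4 := ⟨_, rfl⟩
  obtain ⟨b, hb⟩ : ∃ b : ℕ, b = L / 2 := ⟨_, rfl⟩
  have hb2 : 2 * b ≤ L := by omega
  have hb3 : L ≤ 2 * b + 1 := by omega
  have ha4 : 4 * a ≤ L := by omega
  have ha5 : L ≤ 4 * a + 3 := by omega
  have haw : 4 * k + 5 ≤ a := by omega
  clear ha hb
  have hb2' : 2 * (b : ℝ) ≤ L := by exact_mod_cast hb2
  have hb3' : (L : ℝ) ≤ 2 * b + 1 := by exact_mod_cast hb3
  have ha4' : 4 * (a : ℝ) ≤ L := by exact_mod_cast ha4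
  have ha5' : (L : ℝ) ≤ 4 * a + 3 := by exact_mod_cast ha5
  have hkk : (((k + 1 : ℕ) : ℝ) + 1) = (k : ℝ) + 2 := by push_cast; ring
  have hV0 : (0 : ℝ) ≤ 2 * (L : ℝ) + 1 := by positivity
  have hlevel : ∀ m, a ≤ m → m < b → 0 ≤ Xi M p L m ∧ Xi M p L a ≤ Xi M p L m ∧
      Xi M p L m ≤ C2 * s ^ 2 * (Th M p L m (s ^ 24) + (s ^ 4)⁻¹ * ((2 * (k : ℝ) + 3) ^ d *
        (C1 * ((k : ℝ) + 2) ^ e * Xi M p L m + d * (8 * k + 12) *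
          (2 * (L : ℝ) + 1) ^ (d - 1)) + (2 * (L : ℝ) + 1) ^ d * hol M p k (2 * L) +
          (2 * (L : ℝ) + 1) ^ (d - 1))) + (2 * (L : ℝ) + 1) ^ d *
            ((4 * d * (2 * (L : ℝ) + 1) ^ d) ^ 2 * Real.exp (-((s ^ 2) ^ 2 / 2))) := by
    intro m hm1 hm2
    refine ⟨(h6 d M p L m m le_rfl).1, (h6 d M p L a m hm1).2.1, ?_⟩
    have h8 := hcv (k + 1) L (m - (4 * k + 5)) m (by omega) (by omega) (by omega)
    rw [hkk] at h8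
    exact level h5 h6 hd M p C1 C2 s (2 * (L : ℝ) + 1) e k L m (zero_le_one.trans hC2) hs1 rfl
      (hlev M p k m L (s ^ 24) (s ^ 2) (by omega) (one_le_pow₀ hs1) (one_le_pow₀ hs1)) h8
      (by omega) (by omega) (by omega)
  have hbox : ((L : ℝ) / 4) ^ d * (mu M p).real (Ta M 0 (k + 1) (2 * L)) ≤
      C1 * ((k : ℝ) + 2) ^ e * Xi M p L a := by
    have h7 := hcv (k + 1) L (a - (4 * k + 5)) a (by omega) (by omega) (by omega)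
    rw [hkk] at h7
    refine box_T h5 M p k L (a - (4 * k + 5)) (by omega) (by omega) h7 (by positivity) ?_
    rw [Nat.cast_sub haw]
    push_cast
    linarith
  exact core d e (by omega) C1 C2 hC1 hC2 k L s hsL hs1 hA hB
    ((mu M p).real (Ta M 0 (k + 1) (2 * L))) (hol M p k (2 * L))
    ((2 * (L : ℝ) + 1) ^ d * ((4 * d * (2 * (L : ℝ) + 1) ^ d) ^ 2 *
      Real.exp (-((s ^ 2) ^ 2 / 2)))) (2 * (L : ℝ) + 1)
    (fun m => Xi M p L m) (fun m => Th M p L m (s ^ 24)) a b hH0 hV0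
    (by linarith) le_rfl hlevel (sum_Th h3 h4 M p s hs1 a b L (by omega)) (by omega)
    (by linarith) (by linarith) hbox

/-- Two distinct crossing clusters. -/
theorem two3 (h1 : S_lev) (h2 : S_cv) (h3 : S_thin) (h4 : S_al1) (h5 : S_mon) (h6 : S_xi) :
    S_two3 := by
  intro d M hd hNd hQm
  obtain ⟨C1, hC1, hcv⟩ := h2 d M (by omega) hNd hQm
  obtain ⟨C2, hC2, hlev⟩ := h1 d (by omega)
  have hC10 : 0 < C1 := by linarith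
  have hC20 : 0 < C2 := by linarith
  have hB0 : 0 ≤ B0 d C2 := by unfold B0; positivity
  have hc1 : 0 ≤ 2 * (C1 * C2 * 2 ^ d) := by positivity
  have hc2 : 0 ≤ C1 * 4 ^ d * B0 d C2 := by positivity
  obtain ⟨j, hj⟩ := pow_unbounded_of_one_lt (2 * (C1 * C2 * 2 ^ d) + C1 * 4 ^ d * B0 d C2 + 64)
    (one_lt_two : (1 : ℝ) < 2)
  obtain ⟨e, he⟩ : ∃ e : ℕ, e = 2 * d ^ 2 + 3 * d := ⟨_, rfl⟩
  rw [← he] at hcv
  refine ⟨48 * (e + d + 1 + j), fun k L hkL => ?_⟩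
  have hk0 : (0 : ℝ) ≤ k := Nat.cast_nonneg k
  have hQ2 : (2 : ℝ) ≤ (k : ℝ) + 2 := by linarith
  have hQ1 : (1 : ℝ) ≤ (k : ℝ) + 2 := by linarith
  have hL0' : (0 : ℝ) ≤ L := Nat.cast_nonneg L
  obtain ⟨s, hs⟩ : ∃ s : ℝ, s = (L : ℝ) ^ (1 / 48 : ℝ) := ⟨_, rfl⟩
  have hsn : 0 ≤ s := by rw [hs]; exact Real.rpow_nonneg hL0' _
  have hsL : s ^ 48 = L := by
    rw [hs, ← Real.rpow_natCast, ← Real.rpow_mul hL0']
    norm_num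
  have hsQ : ((k : ℝ) + 2) ^ (e + d + 1 + j) ≤ s := by
    have h7 : (((k : ℝ) + 2) ^ (e + d + 1 + j)) ^ 48 ≤ s ^ 48 := by
      rw [hsL, ← pow_mul, mul_comm]
      have h8 : (((k + 2) ^ (48 * (e + d + 1 + j)) : ℕ) : ℝ) ≤ L := by exact_mod_cast hkL
      push_cast at h8
      exact h8
    exact (pow_le_pow_iff_left₀ (pow_nonneg (zero_le_one.trans hQ1) _) hsn
      (by norm_num)).1 h7
  have hQN1 : 1 ≤ ((k : ℝ) + 2) ^ (e + d + 1) := one_le_pow₀ hQ1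
  have hQN : (k : ℝ) + 2 ≤ ((k : ℝ) + 2) ^ (e + d + 1) := le_self_pow₀ hQ1 (by omega)
  have hsC : (2 * (C1 * C2 * 2 ^ d) + C1 * 4 ^ d * B0 d C2 + 64) *
      ((k : ℝ) + 2) ^ (e + d + 1) ≤ s := by
    calc (2 * (C1 * C2 * 2 ^ d) + C1 * 4 ^ d * B0 d C2 + 64) * ((k : ℝ) + 2) ^ (e + d + 1) ≤
        ((k : ℝ) + 2) ^ j * ((k : ℝ) + 2) ^ (e + d + 1) :=
          mul_le_mul_of_nonneg_right (hj.le.trans (pow_le_pow_left₀ zero_le_two hQ2 j))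
            (zero_le_one.trans hQN1)
      _ = ((k : ℝ) + 2) ^ (e + d + 1 + j) := by rw [← pow_add, add_comm j (e + d + 1)]
      _ ≤ s := hsQ
  obtain ⟨N, hN⟩ : ∃ N : ℝ, N = ((k : ℝ) + 2) ^ (e + d + 1) := ⟨_, rfl⟩
  obtain ⟨c1, hcc1⟩ : ∃ c1 : ℝ, c1 = 2 * (C1 * C2 * 2 ^ d) := ⟨_, rfl⟩
  obtain ⟨c2, hcc2⟩ : ∃ c2 : ℝ, c2 = C1 * 4 ^ d * B0 d C2 := ⟨_, rfl⟩
  rw [← hcc1, ← hcc2, ← hN] at hsC
  rw [← hN] at hQN1 hQN
  rw [← hcc1] at hc1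
  rw [← hcc2] at hc2
  have hN0 : 0 ≤ N := zero_le_one.trans hQN1
  have g1 : 0 ≤ c1 * N := mul_nonneg hc1 hN0
  have g2 : 0 ≤ c2 * N := mul_nonneg hc2 hN0
  have hexp : (c1 + c2 + 64) * N = c1 * N + c2 * N + 64 * N := by ring
  rw [hexp] at hsC
  have hA : 2 * (C1 * C2 * 2 ^ d) * ((k : ℝ) + 2) ^ (e + d + 1) ≤ s := by
    rw [← hcc1, ← hN]; linarith
  have hB : C1 * 4 ^ d * B0 d C2 * ((k : ℝ) + 2) ^ (e + d + 1) ≤ s := by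
    rw [← hcc2, ← hN]; linarith
  have hs64 : 64 * ((k : ℝ) + 2) ≤ s := by linarith
  have hs1 : 1 ≤ s := by linarith
  have hLs : s ≤ L := by rw [← hsL]; exact le_self_pow₀ hs1 (by norm_num)
  have hLk : 64 * (k + 2) ≤ L := by
    have h7 : ((64 * (k + 2) : ℕ) : ℝ) ≤ L := by
      push_cast
      linarith
    exact_mod_cast h7
  have hfin := two3_box h3 h4 h5 h6 hd M (pc M) C1 C2 hC1 hC2 e hcv hlev k L s hsL hs1 hA hB hLk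
  rw [Real.rpow_neg hL0', ← hs]
  exact hfin

end Pool.Agent.Y319.OA
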